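import Mathlib

/-!
# No small subgroups in `PSL(2, ℝ)`, and uniform discreteness of geometric limits
-/

set_option autoImplicit false

open Filter Topology Matrix
open scoped MatrixGroups

namespace Pool.Agent.K3h34.FG

/-- Distance of a matrix in `SL(2, ℝ)` from the identity, the sum of the absolute values. -/
noncomputable def N (A : SL(2, ℝ)) : ℝ :=
  |A 0 0 - 1| + |A 0 1| + |A 1 0| + |A 1 1 - 1|

lemma N_nonneg (A : SL(2, ℝ)) : 0 ≤ N A := by
  unfold N; positivity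

lemma eq_one_of_N {A : SL(2, ℝ)} (h : N A = 0) : A = 1 := by
  unfold N at h
  have h1 := abs_nonneg (A 0 0 - 1)
  have h2 := abs_nonneg (A 0 1)
  have h3 := abs_nonneg (A 1 0)
  have h4 := abs_nonneg (A 1 1 - 1)
  have e1 : A 0 0 - 1 = 0 := abs_eq_zero.1 (by linarith)
  have e2 : A 0 1 = 0 := abs_eq_zero.1 (by linarith)
  have e3 : A 1 0 = 0 := abs_eq_zero.1 (by linarith)
  have e4 : A 1 1 - 1 = 0 := abs_eq_zero.1 (by linarith)
  ext i j
  fin_cases i <;> fin_cases j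
  · simpa using (sub_eq_zero.1 e1)
  · simpa using e2
  · simpa using e3
  · simpa using (sub_eq_zero.1 e4)

lemma abs_aux (a b c d : ℝ) :
    2 * (|a| + |b| + |c| + |d|) - (|a| + |b| + |c| + |d|) ^ 2 ≤
      |2 * a + a ^ 2 + b * c| + |2 * b + a * b + b * d| + |2 * c + c * a + d * c| +
        |2 * d + c * b + d ^ 2| ∧
    |2 * a + a ^ 2 + b * c| + |2 * b + a * b + b * d| + |2 * c + c * a + d * c| +
        |2 * d + c * b + d ^ 2| ≤
      2 * (|a| + |b| + |c| + |d|) + (|a| + |b| + |c| + |d|) ^ 2 := by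
  have ha := abs_nonneg a
  have hb := abs_nonneg b
  have hc := abs_nonneg c
  have hd := abs_nonneg d
  have key : ∀ x y : ℝ, |2 * x| - |y| ≤ |2 * x + y| ∧ |2 * x + y| ≤ |2 * x| + |y| := fun x y =>
    ⟨by
      have := abs_add_le (2 * x + y) (-y)
      rw [abs_neg] at this
      have h2 : 2 * x + y + -y = 2 * x := by ring
      rw [h2] at this
      linarith, abs_add_le _ _⟩
  have k2 : ∀ x : ℝ, |2 * x| = 2 * |x| := fun x => by rw [abs_mul]; norm_num
  have h1 := key a (a ^ 2 + b * c)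
  have h2 := key b (a * b + b * d)
  have h3 := key c (c * a + d * c)
  have h4 := key d (c * b + d ^ 2)
  have b1 : |a ^ 2 + b * c| ≤ |a| ^ 2 + |b| * |c| := by
    refine (abs_add_le _ _).trans ?_
    rw [abs_pow, abs_mul]
  have b2 : |a * b + b * d| ≤ |a| * |b| + |b| * |d| := by
    refine (abs_add_le _ _).trans ?_
    rw [abs_mul, abs_mul]
  have b3 : |c * a + d * c| ≤ |c| * |a| + |d| * |c| := by
    refine (abs_add_le _ _).trans ?_
    rw [abs_mul, abs_mul]
  have b4 : |c * b + d ^ 2| ≤ |c| * |b| + |d| ^ 2 := by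
    refine (abs_add_le _ _).trans ?_
    rw [abs_pow, abs_mul]
  have e1 : 2 * a + a ^ 2 + b * c = 2 * a + (a ^ 2 + b * c) := by ring
  have e2 : 2 * b + a * b + b * d = 2 * b + (a * b + b * d) := by ring
  have e3 : 2 * c + c * a + d * c = 2 * c + (c * a + d * c) := by ring
  have e4 : 2 * d + c * b + d ^ 2 = 2 * d + (c * b + d ^ 2) := by ring
  rw [e1, e2, e3, e4]
  rw [k2] at h1 h2 h3 h4
  have hsq : |a| ^ 2 + |b| * |c| + (|a| * |b| + |b| * |d|) + (|c| * |a| + |d| * |c|) +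
      (|c| * |b| + |d| ^ 2) ≤ (|a| + |b| + |c| + |d|) ^ 2 := by
    nlinarith [mul_nonneg ha hb, mul_nonneg ha hc, mul_nonneg ha hd, mul_nonneg hb hc,
      mul_nonneg hb hd, mul_nonneg hc hd, sq_nonneg |b|, sq_nonneg |c|]
  constructor
  · linarith [h1.1, h2.1, h3.1, h4.1]
  · linarith [h1.2, h2.2, h3.2, h4.2]

lemma N_sq (A : SL(2, ℝ)) :
    2 * N A - N A ^ 2 ≤ N (A * A) ∧ N (A * A) ≤ 2 * N A + N A ^ 2 := by
  have h := abs_aux (A 0 0 - 1) (A 0 1) (A 1 0) (A 1 1 - 1)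
  have e : N (A * A) =
      |2 * (A 0 0 - 1) + (A 0 0 - 1) ^ 2 + A 0 1 * A 1 0| +
      |2 * A 0 1 + (A 0 0 - 1) * A 0 1 + A 0 1 * (A 1 1 - 1)| +
      |2 * A 1 0 + A 1 0 * (A 0 0 - 1) + (A 1 1 - 1) * A 1 0| +
      |2 * (A 1 1 - 1) + A 1 0 * A 0 1 + (A 1 1 - 1) ^ 2| := by
    unfold N
    rw [Matrix.SpecialLinearGroup.coe_mul]
    simp only [Matrix.mul_apply, Fin.sum_univ_two]
    congr 1
    · congr 1
      · congr 1
        · congr 1; ring
        · congr 1; ring
      · congr 1; ring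
    · congr 1; ring
  rw [e]
  exact h

lemma N_neg (A : SL(2, ℝ)) : 4 - N A ≤ N (-A) := by
  unfold N
  have c : ∀ i j, (-A) i j = - A i j := fun i j => by
    rw [Matrix.SpecialLinearGroup.coe_neg]; rfl
  rw [c, c, c, c]
  have h1 : 2 - |A 0 0 - 1| ≤ |-A 0 0 - 1| := by
    have h := neg_abs_le (A 0 0 - 1)
    have h' := neg_abs_le (-A 0 0 - 1)
    have h2 := neg_le_abs (-A 0 0 - 1)
    linarith
  have h4 : 2 - |A 1 1 - 1| ≤ |-A 1 1 - 1| := by
    have h := neg_abs_le (A 1 1 - 1)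
    have h2 := neg_le_abs (-A 1 1 - 1)
    linarith
  have h2 := abs_nonneg (-A 0 1)
  have h3 := abs_nonneg (-A 1 0)
  have h5 := abs_nonneg (A 0 1)
  have h6 := abs_nonneg (A 1 0)
  linarith

lemma continuous_N : Continuous N := by
  unfold N
  have h : ∀ i j, Continuous fun A : SL(2, ℝ) => A i j := fun i j =>
    (continuous_apply j).comp ((continuous_apply i).comp continuous_subtype_val)
  have h1 := h 0 0
  have h2 := h 0 1
  have h3 := h 1 0
  have h4 := h 1 1
  fun_prop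

lemma center_eq {c : SL(2, ℝ)} (hc : c ∈ Subgroup.center (SL(2, ℝ))) :
    c = 1 ∨ c = -1 := by
  obtain ⟨r, hr, h⟩ := Matrix.SpecialLinearGroup.mem_center_iff.1 hc
  have hr' : r ^ 2 = 1 := by simpa using hr
  rcases sq_eq_one_iff.1 hr' with h1 | h1
  · left
    apply Subtype.ext
    rw [← h, h1]
    simp
  · right
    apply Subtype.ext
    rw [← h, h1, Matrix.SpecialLinearGroup.coe_neg, Matrix.SpecialLinearGroup.coe_one, map_neg,
      map_one]

/-- `PSL(2, ℝ)` has no small subgroups. -/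
theorem nss_pow : ∃ U ∈ 𝓝 (1 : PSL(2, ℝ)), ∀ g : PSL(2, ℝ), (∀ k : ℕ, g ^ k ∈ U) → g = 1 := by
  set U' : Set SL(2, ℝ) := {A | N A < 1 / 4} with hU'
  have hU'1 : U' ∈ 𝓝 (1 : SL(2, ℝ)) := by
    refine (isOpen_lt continuous_N continuous_const).mem_nhds ?_
    simp [N]
  refine ⟨(QuotientGroup.mk : SL(2, ℝ) → PSL(2, ℝ)) '' U', ?_, ?_⟩
  · have h := QuotientGroup.nhds_eq (Subgroup.center SL(2, ℝ)) 1
    have h1 : ((1 : SL(2, ℝ)) : PSL(2, ℝ)) = 1 := rfl
    rw [h1] at h
    rw [h]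
    exact Filter.image_mem_map hU'1
  · intro g hg
    obtain ⟨A, hA, hAg⟩ := hg 1
    rw [pow_one] at hAg
    subst hAg
    have key : ∀ j : ℕ, N (A ^ (2 ^ j)) < 1 / 4 ∧ (3 / 2 : ℝ) ^ j * N A ≤ N (A ^ (2 ^ j)) := by
      intro j
      induction j with
      | zero =>
        have hA' : N A < 1 / 4 := hA
        refine ⟨by simpa using hA', ?_⟩
        simp
      | succ j ih =>
        obtain ⟨h1, h2⟩ := ih
        obtain ⟨B, hB, hB'⟩ := hg (2 ^ (j + 1))
        rw [← QuotientGroup.mk_pow] at hB'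
        have e : A ^ (2 ^ (j + 1)) = A ^ (2 ^ j) * A ^ (2 ^ j) := by
          rw [← pow_add]; congr 1; rw [pow_succ]; ring
        have hsq := N_sq (A ^ (2 ^ j))
        have hn := N_nonneg (A ^ (2 ^ j))
        have hc : B⁻¹ * A ^ (2 ^ (j + 1)) ∈ Subgroup.center SL(2, ℝ) := QuotientGroup.eq.1 hB'
        have hBA : A ^ (2 ^ (j + 1)) = B ∨ A ^ (2 ^ (j + 1)) = -B := by
          rcases center_eq hc with h | h
          · left
            rw [inv_mul_eq_one] at h
            exact h.symm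
          · right
            rw [inv_mul_eq_iff_eq_mul] at h
            rw [h]; simp
        have hBn : N B < 1 / 4 := hB
        have h4 : N (A ^ (2 ^ (j + 1))) < 1 / 4 := by
          rcases hBA with h | h
          · rw [h]; exact hBn
          · exfalso
            have h5 := N_neg B
            rw [← h, e] at h5
            nlinarith [hsq.2]
        refine ⟨h4, ?_⟩
        rw [e] at h4 ⊢
        have h6 : (3 / 2 : ℝ) * N (A ^ (2 ^ j)) ≤ N (A ^ (2 ^ j) * A ^ (2 ^ j)) := by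
          nlinarith [hsq.1]
        calc (3 / 2 : ℝ) ^ (j + 1) * N A = (3 / 2) * ((3 / 2 : ℝ) ^ j * N A) := by ring
          _ ≤ (3 / 2) * N (A ^ (2 ^ j)) := by linarith
          _ ≤ _ := h6
    have hA0 : N A = 0 := by
      by_contra hne
      have hpos : 0 < N A := lt_of_le_of_ne (N_nonneg A) (Ne.symm hne)
      obtain ⟨j, hj⟩ := pow_unbounded_of_one_lt (1 / N A) (by norm_num : (1 : ℝ) < 3 / 2)
      have := key j
      have h7 : 1 < (3 / 2 : ℝ) ^ j * N A := by
        rwa [div_lt_iff₀ hpos] at hj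
      linarith [this.1, this.2]
    rw [eq_one_of_N hA0]
    rfl

/-- `PSL(2, ℝ)` has no small subgroups. -/
theorem nss : ∃ U ∈ 𝓝 (1 : PSL(2, ℝ)), ∀ H : Subgroup PSL(2, ℝ), (H : Set PSL(2, ℝ)) ⊆ U →
    H = ⊥ := by
  obtain ⟨U, hU, h⟩ := nss_pow
  refine ⟨U, hU, fun H hH => ?_⟩
  rw [Subgroup.eq_bot_iff_forall]
  exact fun g hg => h g fun k => hH (H.pow_mem hg k)

instance : LocallyCompactSpace SL(2, ℝ) := by
  have : LocallyCompactSpace (Matrix (Fin 2) (Fin 2) ℝ) :=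
    inferInstanceAs (LocallyCompactSpace (Fin 2 → Fin 2 → ℝ))
  exact Matrix.SpecialLinearGroup.isClosedEmbedding_val.locallyCompactSpace

instance : FirstCountableTopology SL(2, ℝ) := by
  have : FirstCountableTopology (Matrix (Fin 2) (Fin 2) ℝ) :=
    inferInstanceAs (FirstCountableTopology (Fin 2 → Fin 2 → ℝ))
  exact Matrix.SpecialLinearGroup.isClosedEmbedding_val.isEmbedding.firstCountableTopology

lemma isClosed_center : IsClosed ((Subgroup.center SL(2, ℝ) : Subgroup SL(2, ℝ)) :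
    Set SL(2, ℝ)) := by
  have : ((Subgroup.center SL(2, ℝ) : Subgroup SL(2, ℝ)) : Set SL(2, ℝ)) ⊆ {1, -1} := by
    intro c hc
    rcases center_eq hc with h | h
    · exact Or.inl h
    · exact Or.inr h
  exact ((Set.toFinite {1, -1}).subset this).isClosed

instance : T2Space PSL(2, ℝ) := by
  have := isClosed_center
  infer_instance

example : LocallyCompactSpace PSL(2, ℝ) := inferInstance
example : FirstCountableTopology PSL(2, ℝ) := inferInstance
example : IsTopologicalGroup PSL(2, ℝ) := inferInstance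

/-- Uniform discreteness of a sequence of subgroups whose limit points lie in a discrete group, in a
locally compact group without small subgroups. -/
theorem disc {G : Type*} [Group G] [TopologicalSpace G] [IsTopologicalGroup G]
    [LocallyCompactSpace G] [T2Space G] [FirstCountableTopology G]
    (hnss : ∃ U ∈ 𝓝 (1 : G), ∀ H : Subgroup G, (H : Set G) ⊆ U → H = ⊥)
    (Γ : ℕ → Subgroup G) (Γ0 : Subgroup G)
    (hd : ∃ V ∈ 𝓝 (1 : G), ∀ g ∈ Γ0, g ∈ V → g = 1)
    (hlim : ∀ (m : ℕ → ℕ) (g : ℕ → G) (a : G), StrictMono m → (∀ j, g j ∈ Γ (m j)) →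
      Tendsto g atTop (𝓝 a) → a ∈ Γ0) :
    ∃ V ∈ 𝓝 (1 : G), ∀ᶠ n in atTop, ∀ g ∈ Γ n, g ∈ V → g = 1 := by
  obtain ⟨U, hU, hUH⟩ := hnss
  obtain ⟨V, hV, hVΓ⟩ := hd
  obtain ⟨K0, hK0, hK0s, hK0c⟩ := local_compact_nhds (inter_mem hU hV)
  set K : Set G := K0 ∩ K0⁻¹ with hK
  have hK1 : K ∈ 𝓝 (1 : G) := by
    refine inter_mem hK0 ?_
    exact inv_mem_nhds_one G hK0
  have hKc : IsCompact K := hK0c.inter_right hK0c.isClosed.inv
  by_contra hcon
  push Not at hcon
  obtain ⟨W, hW⟩ := (𝓝 (1 : G)).exists_antitone_basis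
  have hfr : ∀ j : ℕ, ∃ᶠ n in atTop, ∃ g ∈ Γ n, g ∈ W j ∧ g ≠ 1 := fun j =>
    hcon (W j) (hW.mem j)
  obtain ⟨m, hm, hmg⟩ := extraction_forall_of_frequently hfr
  choose g hgΓ hgW hg1 using hmg
  have hgt : Tendsto g atTop (𝓝 1) := hW.tendsto hgW
  have hex : ∀ j, ∃ p : ℕ, g j ^ p ∉ K := by
    intro j
    by_contra hno
    push Not at hno
    have hb := hUH (Subgroup.zpowers (g j)) (by
      intro x hx
      obtain ⟨z, rfl⟩ := Subgroup.mem_zpowers_iff.1 hx
      have hz : g j ^ z ∈ K := by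
        obtain ⟨p, hp | hp⟩ := z.eq_nat_or_neg
        · rw [hp, zpow_natCast]; exact hno p
        · rw [hp, _root_.zpow_neg, zpow_natCast]
          refine ⟨?_, ?_⟩
          · have := (hno p).2
            exact this
          · have := (hno p).1
            rw [Set.mem_inv, inv_inv]
            exact this
      exact (hK0s hz.1).1)
    exact hg1 j (Subgroup.zpowers_eq_bot.1 hb)
  classical
  choose p hp hpmin using fun j => (⟨Nat.find (hex j), Nat.find_spec (hex j),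
    fun q hq => not_not.1 (Nat.find_min (hex j) hq)⟩ :
      ∃ p : ℕ, g j ^ p ∉ K ∧ ∀ q < p, g j ^ q ∈ K)
  have hp0 : ∀ j, p j ≠ 0 := fun j h0 => by
    have := hp j
    rw [h0, pow_zero] at this
    exact this (mem_of_mem_nhds hK1)
  have haK : ∀ j, g j ^ (p j - 1) ∈ K := fun j =>
    hpmin j _ (Nat.sub_lt (Nat.pos_of_ne_zero (hp0 j)) one_pos)
  obtain ⟨a, ha, φ, hφ, hφa⟩ := hKc.tendsto_subseq haK
  have ha1 : a = 1 := by
    refine hVΓ a ?_ (hK0s ha.1).2
    exact hlim (m ∘ φ) (fun j => g (φ j) ^ (p (φ j) - 1)) a (hm.comp hφ)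
      (fun j => (Γ (m (φ j))).pow_mem (hgΓ (φ j)) _) hφa
  have hprod : Tendsto (fun j => g (φ j) ^ (p (φ j) - 1) * g (φ j)) atTop (𝓝 (a * 1)) :=
    hφa.mul (hgt.comp hφ.tendsto_atTop)
  rw [ha1, one_mul] at hprod
  obtain ⟨j, hj⟩ := (hprod.eventually hK1).exists
  have : g (φ j) ^ (p (φ j) - 1) * g (φ j) = g (φ j) ^ p (φ j) := by
    rw [← pow_succ, Nat.sub_add_cancel (Nat.pos_of_ne_zero (hp0 _))]
  rw [this] at hj
  exact hp _ hj

end Pool.Agent.K3h34.FG
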