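import Pool.Agent.K3h48.HM.Stm
import Pool.Agent.K3h34.FG.NSS

/-!
# Bricks NSS, TOP and CHA of helper48's project HM
-/

set_option autoImplicit false

open Filter Topology

namespace Pool.Agent.K3h34.FG

open Pool.Agent.K3h48.HM

theorem t_NSS : S_NSS := nss_pow

theorem t_TOP : S_TOP := by
  have h1 : LocallyCompactSpace (Matrix.ProjectiveSpecialLinearGroup (Fin 2) ℝ) := inferInstance
  have h2 : T2Space (Matrix.ProjectiveSpecialLinearGroup (Fin 2) ℝ) := inferInstance
  exact ⟨h1, h2⟩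

theorem t_CHA : S_CHA := by
  intro G _ _ _ _ _ hnss Γn Γ hd hch
  obtain ⟨U, hU, hUg⟩ := hnss
  obtain ⟨V, hVo, hV⟩ : ∃ V : Set G, IsOpen V ∧ V ∩ (Γ : Set G) = {1} := by
    have h := discreteTopology_subtype_iff'.1 hd 1 Γ.one_mem
    exact h
  have h1V : (1 : G) ∈ V := by
    have : (1 : G) ∈ V ∩ (Γ : Set G) := by rw [hV]; rfl
    exact this.1
  obtain ⟨K, hK, hKs, hKc⟩ := local_compact_nhds (inter_mem hU (hVo.mem_nhds h1V))
  obtain ⟨O, hO, h1O, hOO⟩ := exists_open_nhds_one_mul_subset hK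
  have hOK : O ⊆ K := fun x hx => by
    have := hOO (Set.mul_mem_mul hx h1O)
    rwa [mul_one] at this
  have hC : IsCompact (K \ O) := hKc.diff hO
  have hdis : Disjoint (K \ O) (Γ : Set G) := by
    rw [Set.disjoint_left]
    intro x hx hxΓ
    have : x ∈ V ∩ (Γ : Set G) := ⟨(hKs hx.1).2, hxΓ⟩
    rw [hV] at this
    rw [Set.mem_singleton_iff] at this
    exact hx.2 (this ▸ h1O)
  refine ⟨O, hO.mem_nhds h1O, ?_⟩
  filter_upwards [hch.1 _ hC hdis] with n hn g hg hgO
  refine hUg g fun k => ?_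
  have hk : ∀ k : ℕ, g ^ k ∈ O := by
    intro k
    induction k with
    | zero => rw [pow_zero]; exact h1O
    | succ k ih =>
      have h2 : g ^ (k + 1) ∈ K := by
        rw [pow_succ]
        exact hOO (Set.mul_mem_mul ih hgO)
      by_contra hno
      exact Set.disjoint_left.1 hn ⟨h2, hno⟩ ((Γn n).pow_mem hg _)
  exact (hKs (hOK (hk k))).1

end Pool.Agent.K3h34.FG
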